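import Pool.Agent.Helper45.PQ.StA

/-!
# PQ, CWS: Caro-Wei and Cauchy-Schwarz
-/

set_option autoImplicit false

open Module Classical
open scoped LinearAlgebra.Projectivization

namespace Pool.Agent.Helper9.PQ

open Pool.Agent.Helper45.PQ

universe u v

theorem hCWS (h1 : StCAW.{v}) : StCWS.{v} := by
  intro α r hr S Δ hΔ
  obtain ⟨I, hIS, hI, hsum⟩ := h1 α r hr S
  refine ⟨I, hIS, hI, ?_⟩
  have hcs := Finset.sum_sq_le_sum_mul_sum_of_sq_eq_mul S
    (r := fun _ => (1 : ℚ))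
    (f := fun x => (1 : ℚ) / (1 + ((S.filter (fun y => y ≠ x ∧ r x y)).card : ℚ)))
    (g := fun x => 1 + ((S.filter (fun y => y ≠ x ∧ r x y)).card : ℚ))
    (fun i _ => by positivity) (fun i _ => by positivity)
    (fun i _ => by
      have h : (1 : ℚ) + ((S.filter (fun y => y ≠ i ∧ r i y)).card : ℚ) ≠ 0 := by positivity
      field_simp)
  have h2 : ∑ x ∈ S, (1 + ((S.filter (fun y => y ≠ x ∧ r x y)).card : ℚ)) ≤ (S.card : ℚ) + Δ := by
    rw [Finset.sum_add_distrib]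
    have h3 : ∑ _x ∈ S, (1 : ℚ) = S.card := by simp
    have h4 : ∑ x ∈ S, ((S.filter (fun y => y ≠ x ∧ r x y)).card : ℚ) ≤ Δ := by
      exact_mod_cast hΔ
    linarith
  have h5 : (S.card : ℚ) ^ 2 ≤ I.card * (S.card + Δ) := by
    have h6 : (∑ _x ∈ S, (1 : ℚ)) = S.card := by simp
    rw [h6] at hcs
    refine hcs.trans ?_
    have h7 : (0 : ℚ) ≤ ∑ x ∈ S, (1 + ((S.filter (fun y => y ≠ x ∧ r x y)).card : ℚ)) :=
      Finset.sum_nonneg fun i _ => by positivity
    exact mul_le_mul hsum h2 h7 (by positivity)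
  exact_mod_cast h5

end Pool.Agent.Helper9.PQ
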